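import Pool.Agent.Helper44.LS.Str

set_option autoImplicit false

namespace Pool.Agent.Results.MP_1fef1a_an.Structure

/-- the indicator `h_f(θ)`: the infimum of all `a` with `|f(r e^{iθ})| ≤ exp(a r^ρ)` for all large `r` -/
noncomputable def indicator (ρ : ℝ) (f : ℂ → ℂ) (θ : ℝ) : ℝ :=
  sInf {a : ℝ | ∀ᶠ r : ℝ in Filter.atTop,
    ‖f ((r : ℂ) * Complex.exp ((θ : ℂ) * Complex.I))‖ ≤ Real.exp (a * r ^ ρ)}

/-- `f` is entire, of order `ρ` and normal type, and satisfies condition (2) -/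
structure Hyp (ρ : ℝ) (f : ℂ → ℂ) : Prop where
  pos : 0 < ρ
  entire : Differentiable ℂ f
  growth : ∃ C : ℝ, ∀ z : ℂ, ‖f z‖ ≤ Real.exp (C * (1 + ‖z‖ ^ ρ))
  normal : ∃ ε : ℝ, 0 < ε ∧ ∀ R : ℝ, ∃ z : ℂ, R ≤ ‖z‖ ∧ Real.exp (ε * ‖z‖ ^ ρ) ≤ ‖f z‖
  simple : ∀ z : ℂ, f z = 0 → deriv f z ≠ 0
  cond2 : ∀ ε : ℝ, 0 < ε → ∃ R : ℝ, ∀ z : ℂ, f z = 0 → R ≤ ‖z‖ →
    -ε ≤ (‖z‖ ^ ρ)⁻¹ * Real.log ‖deriv f z‖ - indicator ρ f (Complex.arg z)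

/-- `v` is an element of the limit set `Fr f`: the limit of `t_j^{-ρ} log |f(t_j z)|` in the sense of
distributions, for some sequence `t_j → ∞` -/
def IsLimit (ρ : ℝ) (f : ℂ → ℂ) (v : ℂ → ℝ) : Prop :=
  MeasureTheory.LocallyIntegrable v MeasureTheory.volume ∧
  ∃ t : ℕ → ℝ, Filter.Tendsto t Filter.atTop Filter.atTop ∧
    ∀ φ : ℂ → ℝ, ContDiff ℝ (⊤ : ℕ∞) φ → HasCompactSupport φ →
      Filter.Tendsto
        (fun j : ℕ => ∫ z : ℂ, (t j ^ ρ)⁻¹ * Real.log ‖f ((t j : ℂ) * z)‖ * φ z)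
        Filter.atTop (nhds (∫ z : ℂ, v z * φ z))

theorem result (ρ : ℝ) (f : ℂ → ℂ) (hf : Hyp ρ f) :
    ∃ C : ℝ, ∀ v : ℂ → ℝ, IsLimit ρ f v → ∃ h : ℝ → ℝ,
      Function.Periodic h (2 * Real.pi) ∧
      (∀ θ₁ θ₂ θ₃ : ℝ, θ₁ < θ₂ → θ₂ < θ₃ → θ₃ - θ₁ < Real.pi / ρ →
        h θ₂ * Real.sin (ρ * (θ₃ - θ₁))
          ≤ h θ₁ * Real.sin (ρ * (θ₃ - θ₂)) + h θ₃ * Real.sin (ρ * (θ₂ - θ₁))) ∧
      (∀ θ : ℝ, |h θ| ≤ C) ∧ (∀ s t : ℝ, |h s - h t| ≤ C * |s - t|) ∧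
      (∀ θ : ℝ, h θ ≤ indicator ρ f θ) ∧
      (∀ θ : ℝ, h θ < indicator ρ f θ → ∃ ε : ℝ, 0 < ε ∧ ∃ α β : ℝ, ∀ s : ℝ, |s - θ| < ε →
        h s = α * Real.cos (ρ * s) + β * Real.sin (ρ * s)) ∧
      ∀ᵐ z : ℂ ∂MeasureTheory.volume, v z = h (Complex.arg z) * ‖z‖ ^ ρ := by
  have hF : Pool.Agent.LS.HypF ρ f :=
    ⟨hf.pos, hf.entire, hf.growth, hf.normal, hf.simple, hf.cond2⟩
  obtain ⟨C, hh, hT⟩ := Pool.Agent.LS.blockF ρ f hF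
  have hhc : Continuous (Pool.Agent.LS.ind ρ f) := by
    have hL : LipschitzWith (Real.toNNReal C) (Pool.Agent.LS.ind ρ f) := by
      refine LipschitzWith.of_dist_le_mul fun s t => ?_
      rw [Real.dist_eq, Real.dist_eq, Real.coe_toNNReal']
      exact (hh.lip s t).trans (mul_le_mul_of_nonneg_right (le_max_left _ _) (abs_nonneg _))
    exact hL.continuous
  refine ⟨C, ?_⟩
  rintro v ⟨hv, t, ht, hconv⟩
  obtain ⟨g, hg, hvg⟩ := Pool.Agent.Helper44.LS2.blockH_str ρ hf.pos f C _ hT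
    (fun X v hX hv hc => Pool.Agent.Helper46.FrG.blockG hh hT hX hv hc) v hv t ht hconv
  refine ⟨g, fun s => hg.per 0 s, Pool.Agent.Helper31.LS.trigConvex_of_InC hf.pos hg,
    fun θ => hg.bdd (0, θ), Pool.Agent.Helper31.LS.lip1 hg, fun θ => hg.le 0 θ, ?_, hvg⟩
  intro θ hθ
  obtain ⟨ε, hε, -, α, β, h1⟩ := Pool.Agent.Helper31.LS.sinusoid_of_InC hf.pos hhc hg hθ
  exact ⟨ε, hε, α, β, h1⟩

end Pool.Agent.Results.MP_1fef1a_an.Structure
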